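import Pool.Agent.H39.Newt3.Base

/-! # Project NEWTON3, module LCR: the lowest homogeneous component at a real point `t0` -/

set_option autoImplicit false
set_option linter.unusedSectionVars false

namespace Pool.Newt3

open MvPolynomial Pool.Agent.H39.MonoR Pool.Agent.H75.Mono Pool.Newt Pool.Newt2

section LCR

variable {σ I : Type} [Fintype σ] [Fintype I]

theorem LCR_hc (P u : MvPolynomial I ℂ) (m n : ℕ) (hP : P.IsHomogeneous m) :
    homogeneousComponent n (P * u) = if m ≤ n then P * homogeneousComponent (n - m) u else 0 := by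
  conv_lhs => rw [← sum_homogeneousComponent u]
  rw [Finset.mul_sum, map_sum]
  have h1 : ∀ i, homogeneousComponent n (P * homogeneousComponent i u) =
      if n = m + i then P * homogeneousComponent i u else 0 := fun i =>
    homogeneousComponent_of_mem (hP.mul (homogeneousComponent_isHomogeneous i u))
  simp_rw [h1]
  split_ifs with h
  · have h2 : ∀ i, (n = m + i) ↔ (i = n - m) := by
      intro i
      omega
    simp_rw [h2]
    rw [Finset.sum_ite_eq']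
    split_ifs with h3
    · rfl
    · rw [homogeneousComponent_eq_zero, mul_zero]
      rw [Finset.mem_range] at h3
      omega
  · refine Finset.sum_eq_zero fun i _ => ?_
    rw [if_neg (by omega)]

/-- translation -/
noncomputable def LCR_tr (t0 : I → ℝ) : MvPolynomial I ℚ →ₐ[ℚ] MvPolynomial I ℂ :=
  aeval fun i => X i + C (t0 i : ℂ)

theorem LCR_tr_X (t0 : I → ℝ) (i : I) : LCR_tr t0 (X i) = X i + C (t0 i : ℂ) := by
  unfold LCR_tr
  rw [aeval_X]

theorem LCR_tr_C (t0 : I → ℝ) (c : ℚ) : LCR_tr t0 (C c) = C (c : ℂ) := by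
  unfold LCR_tr
  rw [aeval_C]
  rfl

open Classical in
theorem LCR_pg (t0 : I → ℝ) (J : ℕ) (hJ : ∀ (i : I) (m : ℕ), t0 i = -m → m ≤ J) (δ : I → ℤ) :
    ∃ u : MvPolynomial I ℂ, constantCoeff u ≠ 0 ∧
      LCR_tr t0 (Pg J δ) = (∏ i ∈ Zr t0 δ, X i) * u := by
  have hJ' : ∀ (i : I) (m : ℤ), t0 i = -m → m ≤ J := by
    intro i m hm
    rcases le_or_gt m 0 with h | h
    · exact h.trans (Int.natCast_nonneg J)
    · obtain ⟨k, rfl⟩ := Int.eq_ofNat_of_zero_le h.le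
      exact_mod_cast hJ i k (by simpa using hm)
  have key : ∀ i, ∃ u : MvPolynomial I ℂ, constantCoeff u ≠ 0 ∧
      LCR_tr t0 (∏ j ∈ Finset.Ioc (δ i) (J : ℤ), (X i + C (j : ℚ))) =
        (if i ∈ Zr t0 δ then X i else 1) * u := by
    intro i
    rw [map_prod]
    have h1 : ∀ j : ℤ, LCR_tr t0 (X i + C (j : ℚ)) = X i + C ((t0 i : ℂ) + j) := by
      intro j
      rw [map_add, LCR_tr_X, LCR_tr_C, C_add, add_assoc, Rat.cast_intCast]
    simp_rw [h1]
    by_cases hi : i ∈ Zr t0 δ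
    · obtain ⟨m, hm, hm'⟩ := (Finset.mem_filter.1 hi).2
      have hmem : m ∈ Finset.Ioc (δ i) (J : ℤ) := Finset.mem_Ioc.2 ⟨hm', hJ' i m hm⟩
      refine ⟨∏ j ∈ (Finset.Ioc (δ i) (J : ℤ)).erase m, (X i + C ((t0 i : ℂ) + j)), ?_, ?_⟩
      · rw [map_prod, Finset.prod_ne_zero_iff]
        intro j hj
        have hjm := Finset.ne_of_mem_erase hj
        simp only [map_add, constantCoeff_X, constantCoeff_C, zero_add]
        rw [hm]
        intro h0
        apply hjm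
        have h0' : (-(m : ℝ) + (j : ℝ) : ℝ) = 0 := by exact_mod_cast h0
        have : (j : ℝ) = m := by linarith
        exact_mod_cast this
      · rw [if_pos hi, ← Finset.mul_prod_erase _ _ hmem, hm]
        simp
    · refine ⟨∏ j ∈ Finset.Ioc (δ i) (J : ℤ), (X i + C ((t0 i : ℂ) + j)), ?_, ?_⟩
      · rw [map_prod, Finset.prod_ne_zero_iff]
        intro j hj
        simp only [map_add, constantCoeff_X, constantCoeff_C, zero_add]
        intro h0
        apply hi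
        have h0' : (t0 i + (j : ℝ) : ℝ) = 0 := by exact_mod_cast h0
        refine Finset.mem_filter.2 ⟨Finset.mem_univ _, j, by linarith, (Finset.mem_Ioc.1 hj).1⟩
      · rw [if_neg hi, one_mul]
  choose u hu0 hu using key
  refine ⟨∏ i, u i, ?_, ?_⟩
  · rw [map_prod]
    exact Finset.prod_ne_zero_iff.2 fun i _ => hu0 i
  · unfold Pg
    rw [map_prod]
    simp_rw [hu]
    rw [Finset.prod_mul_distrib]
    congr 1
    rw [Finset.prod_ite_mem, Finset.univ_inter]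

open Classical in
theorem LCR_dd (a : I → σ → ℕ) (t0 : I → ℝ) (W : Finset σ)
    (hW : ∀ l ∈ W, ∑ i, (a i l : ℝ) * t0 i = -1) (δ : I → ℤ) :
    ∃ v : MvPolynomial I ℂ, LCR_tr t0 (dd a δ) =
      (∏ l ∈ W.filter (fun l => 0 < ∑ i, δ i * (a i l : ℤ)), lfC (fun i => (a i l : ℤ))) * v := by
  have key : ∀ l, ∃ v : MvPolynomial I ℂ,
      LCR_tr t0 (∏ j ∈ Finset.range (∑ i, δ i * (a i l : ℤ)).toNat,
        ((∑ i, C (a i l : ℚ) * X i) + C ((j : ℚ) + 1))) =
      (if l ∈ W.filter (fun l => 0 < ∑ i, δ i * (a i l : ℤ)) then lfC (fun i => (a i l : ℤ))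
        else 1) * v := by
    intro l
    by_cases hl : l ∈ W.filter (fun l => 0 < ∑ i, δ i * (a i l : ℤ))
    · rw [if_pos hl]
      obtain ⟨hl1, hl2⟩ := Finset.mem_filter.1 hl
      obtain ⟨k, hk⟩ : ∃ k, (∑ i, δ i * (a i l : ℤ)).toNat = k + 1 :=
        ⟨(∑ i, δ i * (a i l : ℤ)).toNat - 1, by omega⟩
      rw [hk, Finset.prod_range_succ', map_mul]
      refine ⟨LCR_tr t0 (∏ j ∈ Finset.range k,
        ((∑ i, C (a i l : ℚ) * X i) + C (((j + 1 : ℕ) : ℚ) + 1))), ?_⟩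
      rw [mul_comm]
      congr 1
      rw [map_add, map_sum, LCR_tr_C]
      simp_rw [map_mul, LCR_tr_X, LCR_tr_C, mul_add, Finset.sum_add_distrib]
      have h1 : ∑ i, (C (((a i l : ℚ)) : ℂ) * C (t0 i : ℂ) : MvPolynomial I ℂ) = C (-1) := by
        have h2 : ((∑ i, (a i l : ℝ) * t0 i : ℝ) : ℂ) = -1 := by
          rw [hW l hl1]
          simp
        rw [← h2]
        push_cast
        rw [map_sum]
        exact Finset.sum_congr rfl fun i _ => (C_mul).symm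
      rw [h1]
      unfold lfC
      simp
    · rw [if_neg hl]
      exact ⟨_, (one_mul _).symm⟩
  choose v hv using key
  refine ⟨∏ l, v l, ?_⟩
  unfold dd
  rw [map_prod]
  simp_rw [hv]
  rw [Finset.prod_mul_distrib]
  congr 1
  rw [Finset.prod_ite_mem, Finset.univ_inter]

end LCR

attribute [local instance] MvPolynomial.gradedAlgebra

open Classical in
theorem sLcr : SLcr := by
  intro σ I _ _ a s α K R J hP t0 hα W hW hJ hK
  set Gen : Set (MvPolynomial I ℂ) := ({g | ∃ κ ∈ R.Dk, κ ≠ 0 ∧ R.r κ ≠ 0 ∧ g = ∏ i ∈ Zr t0 κ, X i} ∪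
        {g | ∃ δ ∈ R.Dd, g = (∏ i ∈ Zr t0 δ, X i) *
          ∏ l ∈ W.filter (fun l => 0 < ∑ i, δ i * (a i l : ℤ)), lfC (fun i => (a i l : ℤ))}) with hGen
  have hXp : ∀ Z : Finset I, (∏ i ∈ Z, X i : MvPolynomial I ℂ).IsHomogeneous Z.card := by
    intro Z
    have := IsHomogeneous.prod Z (fun i => (X i : MvPolynomial I ℂ)) (fun _ => 1)
      fun i _ => isHomogeneous_X ℂ i
    simpa using this
  have hlf : ∀ β : I → ℤ, (lfC β).IsHomogeneous 1 := by
    intro β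
    unfold lfC
    refine IsHomogeneous.sum _ _ _ fun i _ => ?_
    have := (isHomogeneous_C I (β i : ℂ)).mul (isHomogeneous_X ℂ i)
    simpa using this
  have hhom : (Ideal.span Gen).IsHomogeneous (homogeneousSubmodule I ℂ) := by
    refine Ideal.homogeneous_span _ _ ?_
    rintro g (⟨κ, -, -, -, rfl⟩ | ⟨δ, -, rfl⟩)
    · exact ⟨_, hXp _⟩
    · refine ⟨_, (hXp _).mul (IsHomogeneous.prod _ _ (fun _ => 1) fun l _ => hlf _)⟩
  choose u hu0 hu using LCR_pg t0 J hJ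
  choose v hv using LCR_dd a t0 W hW
  have h1 := congrArg (LCR_tr t0) hP
  rw [map_sum, map_sum] at h1
  have hsum : LCR_tr t0 ((∑ i, X i) - C α) = ∑ i, X i := by
    rw [map_sub, map_sum, LCR_tr_C]
    simp_rw [LCR_tr_X, Finset.sum_add_distrib]
    have h2 : ((∑ i, t0 i : ℝ) : ℂ) = (α : ℂ) := by
      rw [hα]
      simp
    rw [← h2]
    push_cast
    rw [map_sum]
    ring
  have hL : ∀ κ, LCR_tr t0 ((C (R.r κ) + ((∑ i, X i) - C α) ^ K * R.G κ) * Pg J κ) =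
      C ((R.r κ : ℚ) : ℂ) * ((∏ i ∈ Zr t0 κ, X i) * u κ) +
        (∑ i, X i) ^ K * (LCR_tr t0 (R.G κ) * ((∏ i ∈ Zr t0 κ, X i) * u κ)) := by
    intro κ
    rw [map_mul, map_add, map_mul, map_pow, hsum, LCR_tr_C, hu]
    ring
  simp_rw [hL] at h1
  rw [Finset.sum_add_distrib, ← Finset.mul_sum] at h1
  set z := ∑ κ ∈ R.Dk, LCR_tr t0 (R.G κ) * ((∏ i ∈ Zr t0 κ, X i) * u κ) with hz
  rw [← Finset.add_sum_erase _ _ R.zm] at h1
  have hw1 : ∑ κ ∈ R.Dk.erase 0, C ((R.r κ : ℚ) : ℂ) * ((∏ i ∈ Zr t0 κ, X i) * u κ) ∈ Ideal.span Gen := by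
    refine Ideal.sum_mem _ fun κ hκ => ?_
    by_cases hr : R.r κ = 0
    · rw [hr, Rat.cast_zero, C_0, zero_mul]
      exact Ideal.zero_mem _
    · refine Ideal.mul_mem_left _ _ (Ideal.mul_mem_right _ _ (Ideal.subset_span (Or.inl ?_)))
      exact ⟨κ, Finset.mem_of_mem_erase hκ, Finset.ne_of_mem_erase hκ, hr, rfl⟩
  have hw2 : ∑ δ ∈ R.Dd, LCR_tr t0 (((∑ i, X i) + 1) * Pg J δ * (dd a δ * R.q δ)) ∈
      Ideal.span Gen := by
    refine Ideal.sum_mem _ fun δ hδ => ?_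
    rw [map_mul, map_mul, map_mul, hu, hv]
    have e : ∀ A B Cc Dd Ee Ff : MvPolynomial I ℂ, A * (B * Cc) * (Dd * Ee * Ff) =
        (B * Dd) * (A * Cc * Ee * Ff) := by
      intro A B Cc Dd Ee Ff
      ring
    rw [e]
    exact Ideal.mul_mem_right _ _ (Ideal.subset_span (Or.inr ⟨δ, hδ, rfl⟩))
  have h2 : C ((R.r 0 : ℚ) : ℂ) * ((∏ i ∈ Zr t0 0, X i) * u 0) + (∑ i, X i) ^ K * z ∈ Ideal.span Gen := by
    have e : C ((R.r 0 : ℚ) : ℂ) * ((∏ i ∈ Zr t0 0, X i) * u 0) + (∑ i, X i) ^ K * z =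
        ∑ δ ∈ R.Dd, LCR_tr t0 (((∑ i, X i) + 1) * Pg J δ * (dd a δ * R.q δ)) -
          ∑ κ ∈ R.Dk.erase 0, C ((R.r κ : ℚ) : ℂ) * ((∏ i ∈ Zr t0 κ, X i) * u κ) := by
      rw [← h1]
      ring
    rw [e]
    exact Ideal.sub_mem _ hw2 hw1
  have h3 := homogeneousComponent_mem_of_mem hhom h2 (Zr t0 0).card
  rw [map_add, homogeneousComponent_C_mul, LCR_hc _ _ _ _ (hXp _), if_pos le_rfl, Nat.sub_self,
    homogeneousComponent_zero] at h3
  have hS : ((∑ i, X i : MvPolynomial I ℂ) ^ K).IsHomogeneous K := by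
    have h4 : (∑ i, X i : MvPolynomial I ℂ).IsHomogeneous 1 :=
      IsHomogeneous.sum _ _ _ fun i _ => isHomogeneous_X ℂ i
    simpa using h4.pow K
  rw [LCR_hc _ _ _ _ hS, if_neg (not_le.2 hK), add_zero] at h3
  have hc : (R.r 0 : ℂ) * coeff 0 (u 0) ≠ 0 :=
    mul_ne_zero (by exact_mod_cast R.r0) (hu0 0)
  have h5 := Ideal.mul_mem_left _ (C (((R.r 0 : ℂ) * coeff 0 (u 0))⁻¹)) h3
  have e6 : C (((R.r 0 : ℂ) * coeff 0 (u 0))⁻¹) * (C ((R.r 0 : ℚ) : ℂ) * ((∏ i ∈ Zr t0 0, X i) *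
      C (coeff 0 (u 0)))) = (∏ i ∈ Zr t0 0, X i : MvPolynomial I ℂ) := by
    have e7 : (C (((R.r 0 : ℂ) * coeff 0 (u 0))⁻¹) * (C ((R.r 0 : ℚ) : ℂ) * C (coeff 0 (u 0))) :
        MvPolynomial I ℂ) = 1 := by
      rw [← C_mul, ← C_mul, inv_mul_cancel₀ hc, C_1]
    calc _ = (C (((R.r 0 : ℂ) * coeff 0 (u 0))⁻¹) * (C ((R.r 0 : ℚ) : ℂ) * C (coeff 0 (u 0)))) *
          (∏ i ∈ Zr t0 0, X i : MvPolynomial I ℂ) := by ring
      _ = _ := by rw [e7, one_mul]
  rw [e6] at h5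
  exact h5

end Pool.Newt3
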